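import Pool.Agent.D0H25.Mathon.Exist

set_option autoImplicit false

/-!
The largest group induced on the seven conics of a proper Mathon `8`-arc in `PG(2, 2^h)` is the
cyclic group of order `7`; it occurs exactly for the `h` divisible by `7`.

All definitions (conics, closed families, arcs, collineations, Denniston type, induced group)
are in `Pool/Agent/D0H25/Mathon/Defs.lean`.
-/

namespace Pool.Agent.Results.MP_df3b73_co.LargestInducedGroup

open Pool.Agent.D0H25.Mathon

/-- Let `K` run over the finite fields of characteristic `2`, with `h = [K : GF(2)]`.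

1. Every proper Mathon `8`-arc `p(arc 𝒞)` of `PG(2, K)` has a cyclic induced group, whose order
   divides `h` and is one of `1, 2, 3, 4, 7`; it acts by automorphisms of the Fano plane.
2. A proper Mathon `8`-arc of `PG(2, K)` with an induced group of order `7` (the largest order
   allowed by 1) exists if and only if `7 ∣ h`.
3. If `|K| ≥ 32` then every collineation stabilising a Mathon `8`-arc permutes its seven conics
   (so that the induced group is the image of the whole stabiliser). -/
theorem result :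
    (∀ (K : Type) [Field K] [Fintype K] [Algebra (ZMod 2) K] (𝒞 : Finset (Conic K))
      (p : Collineation K), IsMathonFamily 𝒞 → ¬ IsDenniston (p.act '' arc 𝒞) →
        IsCyclic (inducedGroup 𝒞 p) ∧
        Nat.card (inducedGroup 𝒞 p) ∣ Module.finrank (ZMod 2) K ∧
        Nat.card (inducedGroup 𝒞 p) ∈ ({1, 2, 3, 4, 7} : Set ℕ) ∧
        ∀ π ∈ inducedGroup 𝒞 p, IsFanoAut 𝒞 π) ∧
    (∀ (K : Type) [Field K] [Fintype K] [Algebra (ZMod 2) K],
      (∃ (𝒞 : Finset (Conic K)) (p : Collineation K), IsMathonFamily 𝒞 ∧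
        ¬ IsDenniston (p.act '' arc 𝒞) ∧ Nat.card (inducedGroup 𝒞 p) = 7) ↔
      7 ∣ Module.finrank (ZMod 2) K) ∧
    (∀ (K : Type) [Field K] [Fintype K] [Algebra (ZMod 2) K] (𝒞 : Finset (Conic K))
      (p : Collineation K), 32 ≤ Fintype.card K → IsMathonFamily 𝒞 →
        ∀ g : Collineation K, g.act '' (p.act '' arc 𝒞) = p.act '' arc 𝒞 →
          ∃ π : Equiv.Perm 𝒞, ∀ F : 𝒞,
            g.act '' (p.act '' F.1.points) = p.act '' (π F).1.points) := by
  refine ⟨?_, ?_, ?_⟩
  · intro K _ _ _ 𝒞 p h𝒞 hp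
    obtain ⟨h1, h2, h3⟩ := group_proper h𝒞 p hp
    refine ⟨h1, h2, h3, fun π hπ => ?_⟩
    obtain ⟨g, hg⟩ := (mem_inducedGroup_iff h𝒞 p π).1 hπ
    exact acts_fano h𝒞 hg
  · intro K _ _ _
    constructor
    · rintro ⟨𝒞, p, h𝒞, hp, h7⟩
      have h1 := (group_proper h𝒞 p hp).2.1
      rwa [h7] at h1
    · intro h7
      obtain ⟨𝒞, h𝒞, h⟩ := exists_seven h7
      exact ⟨𝒞, Collineation.one, h𝒞, h Collineation.one⟩
  · intro K _ _ _ 𝒞 p hK h𝒞 g hg
    exact stabiliser_acts h𝒞 hK p g hg

end Pool.Agent.Results.MP_df3b73_co.LargestInducedGroup
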